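import Pool.Agent.K1H34.HYC.Stm

/-!
# Assembly of the vertex labelling
-/

set_option autoImplicit false
open Classical Finset

namespace Pool.Agent.K1H34.HYC

theorem t_COL (hA1 : S_A1) (hA2 : S_A2) (hA3 : S_A3) (hS : S_STRUCT) : S_COL := by
  obtain ⟨C1, D1, h1⟩ := hA1
  obtain ⟨C2, D2, h2⟩ := hA2
  obtain ⟨C3, D3, h3⟩ := hA3
  obtain ⟨D4, h4⟩ := hS
  refine ⟨C1 + C2 + C3, D1 + D2 + D3 + D4, ?_⟩
  intro D hD p hp hpl V _ G c hdeg hc hcs
  obtain ⟨I, K, S, Z, q, hg⟩ := h4 D (by omega) V G hdeg
  obtain ⟨f1, a1, a2, a3, a4⟩ := h1 D (by omega) p hp hpl V G c I K S Z q hdeg hc hcs hg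
  obtain ⟨f2, b1, b2, b3, b4, b5, b6⟩ :=
    h2 D (by omega) p hp hpl V G c I K S Z q hdeg hc hcs hg f1
  obtain ⟨f3, c1, c2, c3, c4, c5⟩ :=
    h3 D (by omega) p hp hpl V G c I K S Z q hdeg hc hcs hg f1 f2 b2 a4 b6
  have hSZ : ∀ v, v ∈ S → v ∉ Z := fun v hv hz => Finset.disjoint_left.1 hg.SZ hv hz
  refine ⟨fun v => if v ∈ S then f1 v else if v ∈ Z then f2 v else f3 v, ?_, ?_, ?_⟩
  · intro v
    by_cases hv : v ∈ S
    · simp only [hv, if_true]
      exact a1 v hv
    · by_cases hz : v ∈ Z
      · simp only [hv, hz, if_true, if_false]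
        exact b1 v hz
      · simp only [hv, hz, if_false]
        exact c1 v hv hz
  · intro x y hxy
    by_cases hx : x ∈ S
    · by_cases hy : y ∈ S
      · simp only [hx, hy, if_true]
        exact a2 x hx y hy hxy
      · by_cases hyz : y ∈ Z
        · simp only [hx, hy, hyz, if_true, if_false]
          exact (b4 y hyz x hx hxy.symm).symm
        · simp only [hx, hy, hyz, if_true, if_false]
          exact (c3 y hy hyz x hx hxy.symm).symm
    · by_cases hxz : x ∈ Z
      · by_cases hy : y ∈ S
        · simp only [hx, hy, hxz, if_true, if_false]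
          exact b4 x hxz y hy hxy
        · by_cases hyz : y ∈ Z
          · simp only [hx, hy, hxz, hyz, if_true, if_false]
            exact b3 x hxz y hyz hxy
          · simp only [hx, hy, hxz, hyz, if_true, if_false]
            exact (c4 y hy hyz x hxz hxy.symm).symm
      · by_cases hy : y ∈ S
        · simp only [hx, hy, hxz, if_true, if_false]
          exact c3 x hx hxz y hy hxy
        · by_cases hyz : y ∈ Z
          · simp only [hx, hy, hxz, hyz, if_true, if_false]
            exact c4 x hx hxz y hyz hxy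
          · simp only [hx, hy, hxz, hyz, if_false]
            exact c2 x y hx hxz hy hyz hxy
  · intro x
    have key : load G c p univ (fun v => if v ∈ S then f1 v else if v ∈ Z then f2 v else f3 v) x ≤
        load G c p S f1 x + load G c p Z f2 x +
          load G c p (univ.filter (fun v => v ∉ S ∧ v ∉ Z)) f3 x := by
      unfold load
      refine le_trans (Finset.card_le_card (t := (S.filter (fun y => G.Adj x y ∧
        near p (f1 y) (c x y)) ∪ Z.filter (fun y => G.Adj x y ∧ near p (f2 y) (c x y))) ∪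
        (univ.filter (fun v => v ∉ S ∧ v ∉ Z)).filter
          (fun y => G.Adj x y ∧ near p (f3 y) (c x y))) ?_) ?_
      · intro y hy
        rw [mem_filter] at hy
        obtain ⟨-, hy1, hy2⟩ := hy
        rw [mem_union, mem_union, mem_filter, mem_filter, mem_filter, mem_filter]
        by_cases hyS : y ∈ S
        · simp only [hyS, if_true] at hy2
          exact Or.inl (Or.inl ⟨hyS, hy1, hy2⟩)
        · by_cases hyz : y ∈ Z
          · simp only [hyS, hyz, if_true, if_false] at hy2
            exact Or.inl (Or.inr ⟨hyz, hy1, hy2⟩)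
          · simp only [hyS, hyz, if_false] at hy2
            exact Or.inr ⟨⟨mem_univ _, hyS, hyz⟩, hy1, hy2⟩
      · exact le_trans (card_union_le _ _) (Nat.add_le_add_right (card_union_le _ _) _)
    calc _ ≤ _ := key
      _ ≤ C1 * p + C2 * p + C3 * p := Nat.add_le_add (Nat.add_le_add (a3 x) (b5 x)) (c5 x)
      _ = (C1 + C2 + C3) * p := by ring

end Pool.Agent.K1H34.HYC
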