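import Pool.Agent.K1H34.HYC.Stm

/-!
# Colouring the parts one after the other
-/

set_option autoImplicit false
open Classical Finset

namespace Pool.Agent.K1H34.HYC

theorem t_SEQ (hH : S_HITS) : S_SEQ := by
  intro X O _ _ Γ L M π s d P r hπ hs hL hd hds hr hP hrow
  have key : ∀ m, m ≤ M → ∃ f : X → ℕ, (∀ x, π x < m → f x ∈ L x) ∧
      (∀ x y, π x < m → π y < m → Γ.Adj x y → f x ≠ f y) ∧
      ∀ o, hits (P o) (univ.filter (fun x => π x < m)) f ≤ m * r o := by
    intro m
    induction m with
    | zero =>
      intro _
      refine ⟨fun _ => 0, fun x hx => absurd hx (Nat.not_lt_zero _),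
        fun x y hx => absurd hx (Nat.not_lt_zero _), fun o => ?_⟩
      unfold hits
      simp
    | succ m ih =>
      intro hm
      obtain ⟨f, hf1, hf2, hf3⟩ := ih (by omega)
      have hmM : m < M := by omega
      obtain ⟨g, hg1, hg2, hg3⟩ := hH X O Γ (univ.filter (fun x => π x = m))
        (fun x => L x \ (univ.filter (fun y => Γ.Adj x y ∧ π y < π x)).image f) (s m) (d m) P r
        (hs m hmM)
        (by
          intro x hx
          rw [mem_filter] at hx
          have h1 := hL x
          have h2 : ((univ.filter (fun y => Γ.Adj x y ∧ π y < π x)).image f).card ≤
            (univ.filter (fun y => Γ.Adj x y ∧ π y < π x)).card := card_image_le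
          have h3 := Finset.le_card_sdiff
            ((univ.filter (fun y => Γ.Adj x y ∧ π y < π x)).image f) (L x)
          rw [hx.2] at h1 h2 h3 ⊢
          omega)
        (by
          intro x hx
          rw [mem_filter] at hx
          have h1 := hd x
          rw [hx.2] at h1
          refine le_trans (card_le_card ?_) h1
          intro y hy
          rw [mem_filter, mem_filter] at hy
          rw [mem_filter]
          exact ⟨mem_univ _, hy.2, hy.1.2⟩)
        (hds m hmM) hr
        (by
          intro o
          refine le_trans (Nat.mul_le_mul_left _ (card_le_card ?_)) (hP m hmM o)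
          intro z hz
          rw [mem_filter] at hz ⊢
          exact ⟨hz.1, (mem_filter.1 hz.2).2⟩)
        (by
          intro x hx
          rw [mem_filter] at hx
          have h1 := hrow x
          rw [hx.2] at h1
          exact h1)
      refine ⟨fun x => if π x = m then g x else f x, ?_, ?_, ?_⟩
      · intro x hx
        by_cases hxm : π x = m
        · simp only [hxm, if_true]
          have := hg1 x (by rw [mem_filter]; exact ⟨mem_univ _, hxm⟩)
          exact (mem_sdiff.1 this).1
        · simp only [hxm, if_false]
          exact hf1 x (by omega)
      · have main : ∀ x y, π x = m → π y < m → Γ.Adj x y → g x ≠ f y := by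
          intro x y hx hy hxy he
          have := hg1 x (by rw [mem_filter]; exact ⟨mem_univ _, hx⟩)
          refine (mem_sdiff.1 this).2 ?_
          rw [he]
          exact mem_image_of_mem _ (by rw [mem_filter]; exact ⟨mem_univ _, hxy, by omega⟩)
        intro x y hx hy hxy
        by_cases hxm : π x = m
        · by_cases hym : π y = m
          · simp only [hxm, hym, if_true]
            exact hg2 x (by rw [mem_filter]; exact ⟨mem_univ _, hxm⟩) y
              (by rw [mem_filter]; exact ⟨mem_univ _, hym⟩) hxy
          · simp only [hxm, hym, if_true, if_false]
            exact main x y hxm (by omega) hxy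
        · by_cases hym : π y = m
          · simp only [hxm, hym, if_true, if_false]
            exact (main y x hym (by omega) hxy.symm).symm
          · simp only [hxm, hym, if_false]
            exact hf2 x y (by omega) (by omega) hxy
      · intro o
        have h1 : hits (P o) (univ.filter (fun x => π x < m + 1))
            (fun x => if π x = m then g x else f x) ≤
            hits (P o) (univ.filter (fun x => π x < m)) f +
              hits (P o) (univ.filter (fun x => π x = m)) g := by
          unfold hits
          refine le_trans (card_le_card ?_) (card_union_le _ _)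
          intro x hx
          rw [mem_filter, mem_filter] at hx
          rw [mem_union, mem_filter, mem_filter, mem_filter, mem_filter]
          by_cases hxm : π x = m
          · simp only [hxm, if_true] at hx
            exact Or.inr ⟨⟨mem_univ _, hxm⟩, hx.2⟩
          · simp only [hxm, if_false] at hx
            exact Or.inl ⟨⟨mem_univ _, by omega⟩, hx.2⟩
        calc _ ≤ _ := h1
          _ ≤ m * r o + r o := Nat.add_le_add (hf3 o) (hg3 o)
          _ = (m + 1) * r o := by ring
  obtain ⟨f, h1, h2, h3⟩ := key M le_rfl
  refine ⟨f, fun x => h1 x (hπ x), fun x y hxy => h2 x y (hπ x) (hπ y) hxy, fun o => ?_⟩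
  have h4 : univ.filter (fun x => π x < M) = univ := by
    ext x
    simp [hπ x]
  have := h3 o
  rw [h4] at this
  exact this

end Pool.Agent.K1H34.HYC
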