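import Pool.Agent.K1H34.HYC.Stm

/-!
# Interface, second part: the decomposition
-/

set_option autoImplicit false
open Classical Finset

namespace Pool.Agent.K1H34.HYC

/-- the decomposition before vertices of the clusters are attached to outside classes -/
structure Base {V : Type} [Fintype V] (G : SimpleGraph V) (D : ℕ) (I : Finset V)
    (K : V → Finset V) (S Z : Finset V) (q : V → V) : Prop where
  disj : ∀ i ∈ I, ∀ j ∈ I, i ≠ j → Disjoint (K i) (K j)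
  SZ : Disjoint S Z
  SK : ∀ i ∈ I, Disjoint S (K i)
  cover : ∀ v, v ∉ S → v ∉ Z → ∃ i ∈ I, v ∈ K i
  sparse : ∀ v ∈ S, (dg G S v : ℝ) ≤ (1 - 1 / 2 ^ 602) * D ∨
    (D : ℝ) ^ 2 / 2 ^ 602 ≤ (np G S v).card
  smallS : ∀ v ∈ S, ∀ i ∈ I, (dg G (K i) v : ℝ) ≤ D / 2 ^ 60
  qZ : ∀ z ∈ Z, q z ∈ Z ∧ q (q z) = q z
  qK : ∀ z ∈ Z, ∀ i ∈ I, q z ∈ K i ↔ z ∈ K i
  qT : ∀ z ∈ Z, (∀ i ∈ I, z ∉ K i) → q z = z
  indep : ∀ z ∈ Z, ∀ z' ∈ Z, q z = q z' → ¬ G.Adj z z'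
  size : ∀ u, (cls Z q u).card ≤ 2
  big : ∀ z ∈ Z, (∀ i ∈ I, z ∉ K i) → ∃ i ∈ I, (D : ℝ) / 2 ^ 60 < dg G (K i) z
  inside : ∀ i ∈ I, ∀ w ∈ K i, (dg G (univ \ K i) w : ℝ) ≤ 26 / 100 * D
  outside : ∀ i ∈ I, ∀ w, w ∉ K i → (dg G (K i) w : ℝ) ≤ 76 / 100 * D
  card : ∀ i ∈ I, 99 / 100 * (D : ℝ) ≤ (K i).card
  cnt : ∀ i ∈ I, ((K i).filter (fun v => v ∉ Z)).card +
    (((K i).filter (fun v => v ∈ Z)).image q).card ≤ D + 1
  few : ∀ i ∈ I, (((K i).filter (fun v => v ∈ Z)).card : ℝ) ≤ D / 2 ^ 296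
  out : ∀ i ∈ I, ∀ v ∈ K i, v ∉ Z → (dg G (univ \ K i) v : ℝ) ≤ D / 2 ^ 300
  tot : ∀ i ∈ I, ∑ v ∈ K i, (dg G (univ \ K i) v : ℝ) ≤ (D : ℝ) ^ 2 / 2 ^ 590

/-- BASE: the decomposition before attaching -/
def S_BASE : Prop :=
  ∃ D0 : ℕ, ∀ D : ℕ, D0 ≤ D → ∀ (V : Type) [Fintype V] (G : SimpleGraph V),
    (∀ v, dg G univ v ≤ D) → ∃ I K S Z q, Base G D I K S Z q

/-- the class of `u` has to be attached to the cluster `K i` -/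
def Req {V : Type} [Fintype V] (G : SimpleGraph V) (D : ℕ) (I : Finset V)
    (K : V → Finset V) (Z : Finset V) (q : V → V) (u i : V) : Prop :=
  u ∈ Z ∧ q u = u ∧ i ∈ I ∧ (∀ z ∈ cls Z q u, z ∉ K i) ∧
    (D : ℝ) / 2 ^ 120 < ((K i).filter (fun v => v ∈ CN G Z q u)).card

/-- ATT: the attached vertices -/
def S_ATT : Prop :=
  ∃ D0 : ℕ, ∀ D : ℕ, D0 ≤ D → ∀ (V : Type) [Fintype V] (G : SimpleGraph V) (I : Finset V)
    (K : V → Finset V) (S Z : Finset V) (q : V → V), (∀ v, dg G univ v ≤ D) →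
    Base G D I K S Z q →
    (∀ i ∈ I, ((univ.filter (fun u => Req G D I K Z q u i)).card : ℝ) ≤ D / 2 ^ 470) ∧
    (∀ u, (univ.filter (fun i => Req G D I K Z q u i)).card ≤ 2 ^ 121) ∧
    ∃ att : V → V → V,
      (∀ u i, Req G D I K Z q u i → att u i ∈ K i ∧ att u i ∉ Z ∧ att u i ∉ CN G Z q u) ∧
      (∀ u u' i, Req G D I K Z q u i → Req G D I K Z q u' i → att u i = att u' i → u = u') ∧
      (∀ u i i', Req G D I K Z q u i → Req G D I K Z q u i' → ¬ G.Adj (att u i) (att u i'))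

end Pool.Agent.K1H34.HYC
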