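import Pool.Agent.K1H34.HYC.Stm

/-!
# Few labels on triples
-/

set_option autoImplicit false
open Classical Finset

namespace Pool.Agent.K1H34.HYC

/-- the three pairs of a triple and a label -/
noncomputable def blk {X : Type} {N : ℕ} (ℓ : Fin N) (t : X × X × X) : Finset (X × Fin N) :=
  {(t.1, ℓ), (t.2.1, ℓ), (t.2.2, ℓ)}

/-- the triples -/
noncomputable def trp {X : Type} [Fintype X] (G : SimpleGraph X) (A : Finset X) (v : X) :
    Finset (X × X × X) :=
  univ.filter (fun t => (t.1, t.2.1) ∈ np G A v ∧ t.2.2 ∈ A ∧ G.Adj t.1 t.2.2)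

theorem trp_card {X : Type} [Fintype X] (G : SimpleGraph X) (A : Finset X) (v : X) (n : ℕ)
    (h : ∀ x, dg G A x ≤ n) : (trp G A v).card ≤ n ^ 3 := by
  have h1 : trp G A v ⊆ ((A.filter (fun y => G.Adj v y)) ×ˢ
      (A.filter (fun y => G.Adj v y))).biUnion (fun z =>
        (A.filter (fun u => G.Adj z.1 u)).image (fun u => (z.1, z.2, u))) := by
    intro t ht
    unfold trp np at ht
    rw [mem_filter, mem_filter, mem_product] at ht
    rw [mem_biUnion]
    refine ⟨(t.1, t.2.1), ?_, ?_⟩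
    · rw [mem_product, mem_filter, mem_filter]
      exact ⟨⟨ht.2.1.1.1, ht.2.1.2.1⟩, ⟨ht.2.1.1.2, ht.2.1.2.2.1⟩⟩
    · rw [mem_image]
      exact ⟨t.2.2, by rw [mem_filter]; exact ⟨ht.2.2.1, ht.2.2.2⟩, rfl⟩
  refine le_trans (card_le_card h1) (le_trans card_biUnion_le ?_)
  calc ∑ z ∈ (A.filter (fun y => G.Adj v y)) ×ˢ (A.filter (fun y => G.Adj v y)),
        ((A.filter (fun u => G.Adj z.1 u)).image (fun u => (z.1, z.2, u))).card
      ≤ ∑ z ∈ (A.filter (fun y => G.Adj v y)) ×ˢ (A.filter (fun y => G.Adj v y)), n :=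
        sum_le_sum (fun z _ => le_trans card_image_le (h z.1))
    _ = (A.filter (fun y => G.Adj v y)).card * (A.filter (fun y => G.Adj v y)).card * n := by
        rw [sum_const, card_product, smul_eq_mul]
    _ ≤ n * n * n := Nat.mul_le_mul_right _ (Nat.mul_le_mul (h v) (h v))
    _ = n ^ 3 := by ring

/-- the family -/
noncomputable def TT {X : Type} [Fintype X] (N : ℕ) (G : SimpleGraph X) (A : Finset X) (v : X)
    (k : ℕ) : Finset (Finset (X × Fin N)) :=
  (((univ : Finset (Fin N)).powersetCard k).biUnion (fun Λ =>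
    (Λ.pi (fun _ => trp G A v)).image (fun g =>
      Λ.attach.biUnion (fun ℓ => blk ℓ.1 (g ℓ.1 ℓ.2))))).filter (fun τ => τ.card = 3 * k)

theorem TT_card {X : Type} [Fintype X] (N : ℕ) (G : SimpleGraph X) (A : Finset X) (v : X)
    (k : ℕ) : (TT N G A v k).card ≤ N.choose k * (trp G A v).card ^ k := by
  unfold TT
  refine le_trans (card_filter_le _ _) (le_trans card_biUnion_le ?_)
  calc ∑ Λ ∈ (univ : Finset (Fin N)).powersetCard k, ((Λ.pi (fun _ => trp G A v)).image (fun g =>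
      Λ.attach.biUnion (fun ℓ => blk ℓ.1 (g ℓ.1 ℓ.2)))).card
      ≤ ∑ Λ ∈ (univ : Finset (Fin N)).powersetCard k, (trp G A v).card ^ k := by
        refine sum_le_sum (fun Λ hΛ => le_trans card_image_le ?_)
        rw [card_pi, prod_const, (mem_powersetCard.1 hΛ).2]
    _ = _ := by rw [sum_const, card_powersetCard, card_univ, Fintype.card_fin, smul_eq_mul]

theorem TT_pos {X : Type} [Fintype X] (N : ℕ) (G : SimpleGraph X) (A : Finset X) (v : X)
    (k : ℕ) (τ : Finset (X × Fin N)) (hτ : τ ∈ TT N G A v k) (z : X × Fin N) (hz : z ∈ τ) :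
    G.Adj v z.1 ∨ ∃ y, G.Adj v y ∧ G.Adj y z.1 := by
  unfold TT at hτ
  rw [mem_filter, mem_biUnion] at hτ
  obtain ⟨⟨Λ, hΛ, h1⟩, -⟩ := hτ
  rw [mem_image] at h1
  obtain ⟨g, hg, rfl⟩ := h1
  rw [mem_biUnion] at hz
  obtain ⟨ℓ, -, hz⟩ := hz
  have ht := (mem_pi.1 hg) ℓ.1 ℓ.2
  unfold trp np at ht
  rw [mem_filter, mem_filter] at ht
  unfold blk at hz
  rw [mem_insert, mem_insert, mem_singleton] at hz
  rcases hz with rfl | rfl | rfl
  · exact Or.inl ht.2.1.2.1
  · exact Or.inl ht.2.1.2.2.1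
  · exact Or.inr ⟨_, ht.2.1.2.1, ht.2.2.2⟩

theorem TT_avoid {X : Type} [Fintype X] (N : ℕ) (G : SimpleGraph X) (A : Finset X) (v : X)
    (k : ℕ) (ω : X → Fin N) (h : ∀ τ ∈ TT N G A v k, ¬ ∀ z ∈ τ, ω z.1 = z.2) :
    (tri G A (np G A v) ω).card < k := by
  by_contra hk
  push Not at hk
  obtain ⟨Λ, hΛ, hΛk⟩ := exists_subset_card_eq hk
  have hw : ∀ ℓ ∈ Λ, ∃ t : X × X × X, t ∈ trp G A v ∧ ω t.1 = ℓ ∧ ω t.2.1 = ℓ ∧ ω t.2.2 = ℓ := by
    intro ℓ hℓ
    have h1 := hΛ hℓ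
    unfold tri at h1
    rw [mem_filter] at h1
    obtain ⟨-, z, hz, u, hu, h2, h3, h4, h5⟩ := h1
    refine ⟨(z.1, z.2, u), ?_, h3, h4, h5⟩
    unfold trp
    rw [mem_filter]
    exact ⟨mem_univ _, hz, hu, h2⟩
  choose t ht ht1 ht2 ht3 using hw
  refine h (Λ.attach.biUnion (fun ℓ => blk ℓ.1 (t ℓ.1 ℓ.2))) ?_ ?_
  · unfold TT
    rw [mem_filter, mem_biUnion]
    refine ⟨⟨Λ, mem_powersetCard.2 ⟨subset_univ _, hΛk⟩, ?_⟩, ?_⟩
    · rw [mem_image]
      exact ⟨t, mem_pi.2 (fun ℓ hℓ => ht ℓ hℓ), rfl⟩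
    · rw [card_biUnion]
      · have h3 : ∀ ℓ ∈ Λ.attach, (blk ℓ.1 (t ℓ.1 ℓ.2)).card = 3 := by
          intro ℓ _
          have h4 := ht ℓ.1 ℓ.2
          unfold trp np at h4
          rw [mem_filter, mem_filter] at h4
          obtain ⟨-, ⟨-, h5, h6, h7, h8⟩, h9, h10⟩ := h4
          unfold blk
          have a1 : (t ℓ.1 ℓ.2).1 ≠ (t ℓ.1 ℓ.2).2.1 := h7
          have a2 : (t ℓ.1 ℓ.2).1 ≠ (t ℓ.1 ℓ.2).2.2 := fun he => by
            rw [← he] at h10
            exact G.irrefl h10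
          have a3 : (t ℓ.1 ℓ.2).2.1 ≠ (t ℓ.1 ℓ.2).2.2 := fun he => by
            rw [← he] at h10
            exact h8 h10
          rw [card_eq_three]
          refine ⟨_, _, _, ?_, ?_, ?_, rfl⟩
          · intro he
            exact a1 (Prod.ext_iff.1 he).1
          · intro he
            exact a2 (Prod.ext_iff.1 he).1
          · intro he
            exact a3 (Prod.ext_iff.1 he).1
        rw [sum_congr rfl h3, sum_const, card_attach, hΛk, smul_eq_mul, mul_comm]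
      · intro ℓ _ ℓ' _ hne
        rw [Function.onFun, Finset.disjoint_left]
        intro z hz hz'
        unfold blk at hz hz'
        rw [mem_insert, mem_insert, mem_singleton] at hz hz'
        have e1 : z.2 = ℓ.1 := by
          rcases hz with rfl | rfl | rfl <;> rfl
        have e2 : z.2 = ℓ'.1 := by
          rcases hz' with rfl | rfl | rfl <;> rfl
        exact hne (Subtype.ext (e1.symm.trans e2))
  · intro z hz
    rw [mem_biUnion] at hz
    obtain ⟨ℓ, -, hz⟩ := hz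
    unfold blk at hz
    rw [mem_insert, mem_insert, mem_singleton] at hz
    rcases hz with rfl | rfl | rfl
    · exact ht1 ℓ.1 ℓ.2
    · exact ht2 ℓ.1 ℓ.2
    · exact ht3 ℓ.1 ℓ.2

theorem choose_le (N k : ℕ) (hk : 1 ≤ k) :
    (N.choose k : ℝ) ≤ (Real.exp 1 * N / k) ^ k := by
  have hk0 : (0 : ℝ) < k := by exact_mod_cast hk
  have h1 : (N.choose k : ℝ) ≤ (N : ℝ) ^ k / k.factorial := Nat.choose_le_pow_div k N
  have h2 : (k : ℝ) ^ k / k.factorial ≤ Real.exp k :=
    Real.pow_div_factorial_le_exp (k : ℝ) hk0.le k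
  have hf : (0 : ℝ) < k.factorial := by exact_mod_cast Nat.factorial_pos k
  have h3 : (1 : ℝ) / k.factorial ≤ Real.exp k / (k : ℝ) ^ k := by
    rw [div_le_div_iff₀ hf (by positivity)]
    rw [div_le_iff₀ hf] at h2
    linarith
  have h4 : Real.exp (k : ℝ) = Real.exp 1 ^ k := by
    rw [← Real.exp_nat_mul, mul_one]
  calc (N.choose k : ℝ) ≤ (N : ℝ) ^ k / k.factorial := h1
    _ = (N : ℝ) ^ k * (1 / k.factorial) := by ring
    _ ≤ (N : ℝ) ^ k * (Real.exp k / (k : ℝ) ^ k) := mul_le_mul_of_nonneg_left h3 (by positivity)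
    _ = (Real.exp 1 * N / k) ^ k := by
      rw [h4, div_pow, mul_pow]
      ring

theorem t_TRI : S_TRI := by
  intro a
  refine ⟨1, ?_⟩
  intro D hD X _ G A v w hw0 hw1 hA
  have hDr : (1 : ℝ) ≤ D := by exact_mod_cast hD
  set k : ℕ := ⌈200 * (D : ℝ) / 2 ^ (3 * a + 45)⌉₊ with hk
  have hkpos : 1 ≤ k := Nat.one_le_iff_ne_zero.2 (by
    rw [hk, Ne, Nat.ceil_eq_zero, not_le]
    positivity)
  have hk1 : 200 * (D : ℝ) / 2 ^ (3 * a + 45) ≤ k := Nat.le_ceil _
  have hk2 : (k : ℝ) < 200 * (D : ℝ) / 2 ^ (3 * a + 45) + 1 := Nat.ceil_lt_add_one (by positivity)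
  refine ⟨TT (D + 1) G A v k, ?_, ?_, ?_⟩
  · intro τ hτ
    refine ⟨?_, fun z hz => TT_pos _ G A v k τ hτ z hz⟩
    have h1 : τ.card = 3 * k := (mem_filter.1 hτ).2
    rw [← card_pos, h1]
    omega
  · set n : ℕ := D / 2 ^ (a + 14) with hn
    have hdn : ∀ x, dg G A x ≤ n := by
      intro x
      rw [hn, Nat.le_div_iff_mul_le (by positivity)]
      exact hA x
    have hnr : (n : ℝ) ≤ D / 2 ^ (a + 14) := by
      rw [le_div_iff₀ (by positivity)]
      exact_mod_cast Nat.div_mul_le_self D (2 ^ (a + 14))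
    have hsum : ∑ τ ∈ TT (D + 1) G A v k, (1 / ((1 - w) * ((D + 1 : ℕ) : ℝ))) ^ τ.card =
        (TT (D + 1) G A v k).card * (1 / ((1 - w) * ((D + 1 : ℕ) : ℝ))) ^ (3 * k) := by
      rw [sum_congr rfl (fun τ hτ => by rw [(mem_filter.1 hτ).2]), sum_const, nsmul_eq_mul]
    rw [hsum]
    have hN : (0 : ℝ) < ((D + 1 : ℕ) : ℝ) := by positivity
    have hN1 : (D : ℝ) ≤ ((D + 1 : ℕ) : ℝ) := by push_cast; linarith
    have hx : 1 / ((1 - w) * ((D + 1 : ℕ) : ℝ)) ≤ (4 / 3) / ((D + 1 : ℕ) : ℝ) := by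
      rw [div_le_div_iff₀ (mul_pos (by linarith) hN) hN]
      nlinarith
    have hx0 : 0 ≤ 1 / ((1 - w) * ((D + 1 : ℕ) : ℝ)) :=
      div_nonneg zero_le_one (mul_nonneg (by linarith) hN.le)
    have hcard : ((TT (D + 1) G A v k).card : ℝ) ≤
        (Real.exp 1 * ((D + 1 : ℕ) : ℝ) / k) ^ k * ((D / 2 ^ (a + 14)) ^ 3) ^ k := by
      have h1 : ((TT (D + 1) G A v k).card : ℝ) ≤
          ((D + 1).choose k : ℝ) * ((trp G A v).card : ℝ) ^ k := by
        exact_mod_cast TT_card (D + 1) G A v k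
      have h2 : ((trp G A v).card : ℝ) ≤ ((D : ℝ) / 2 ^ (a + 14)) ^ 3 := by
        have h3 : ((trp G A v).card : ℝ) ≤ (n : ℝ) ^ 3 := by exact_mod_cast trp_card G A v n hdn
        exact le_trans h3 (pow_le_pow_left₀ (Nat.cast_nonneg _) hnr 3)
      refine le_trans h1 (mul_le_mul (choose_le _ k hkpos)
        (pow_le_pow_left₀ (Nat.cast_nonneg _) h2 k) (by positivity) (by positivity))
    have hk0 : (0 : ℝ) < k := by exact_mod_cast hkpos
    calc ((TT (D + 1) G A v k).card : ℝ) * (1 / ((1 - w) * ((D + 1 : ℕ) : ℝ))) ^ (3 * k)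
        ≤ ((Real.exp 1 * ((D + 1 : ℕ) : ℝ) / k) ^ k * ((D / 2 ^ (a + 14)) ^ 3) ^ k) *
          ((4 / 3) / ((D + 1 : ℕ) : ℝ)) ^ (3 * k) :=
          mul_le_mul hcard (pow_le_pow_left₀ hx0 hx _) (by positivity) (by positivity)
      _ = (Real.exp 1 * ((D + 1 : ℕ) : ℝ) / k * (D / 2 ^ (a + 14)) ^ 3 *
          ((4 / 3) / ((D + 1 : ℕ) : ℝ)) ^ 3) ^ k := by
          rw [mul_pow, mul_pow, ← pow_mul ((4 / 3) / ((D + 1 : ℕ) : ℝ)) 3 k]
      _ ≤ (Real.exp (-1)) ^ k := by
          refine pow_le_pow_left₀ (by positivity) ?_ k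
          have e1 : Real.exp 1 * ((D + 1 : ℕ) : ℝ) / k * ((D : ℝ) / 2 ^ (a + 14)) ^ 3 *
              ((4 / 3) / ((D + 1 : ℕ) : ℝ)) ^ 3 =
              Real.exp 1 * (64 / 27) * ((D : ℝ) / ((D + 1 : ℕ) : ℝ)) ^ 2 *
                ((D / 2 ^ (3 * a + 42)) / k) := by
            have p1 : (2 : ℝ) ^ (3 * a + 42) = (2 ^ (a + 14)) ^ 3 := by
              rw [← pow_mul]; congr 1; ring
            rw [p1]
            field_simp
            ring
          rw [e1]
          have e2 : (D : ℝ) / ((D + 1 : ℕ) : ℝ) ≤ 1 := by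
            rw [div_le_one hN]; exact hN1
          have e3 : ((D : ℝ) / ((D + 1 : ℕ) : ℝ)) ^ 2 ≤ 1 := pow_le_one₀ (by positivity) e2
          have e4 : ((D : ℝ) / 2 ^ (3 * a + 42)) / k ≤ 1 / 25 := by
            rw [div_le_iff₀ hk0]
            have p2 : (2 : ℝ) ^ (3 * a + 45) = 8 * 2 ^ (3 * a + 42) := by
              rw [show 3 * a + 45 = (3 * a + 42) + 3 by ring, pow_add]; norm_num; ring
            rw [p2] at hk1
            have p3 : 200 * (D : ℝ) / (8 * 2 ^ (3 * a + 42)) = 25 * (D / 2 ^ (3 * a + 42)) := by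
              field_simp
              norm_num
            rw [p3] at hk1
            linarith
          have e5 : Real.exp 1 ≤ 2.7182818286 := Real.exp_one_lt_d9.le
          have e6 : Real.exp 1 * (64 / 27) * ((D : ℝ) / ((D + 1 : ℕ) : ℝ)) ^ 2 *
                ((D / 2 ^ (3 * a + 42)) / k) ≤ Real.exp 1 * (64 / 27) * 1 * (1 / 25) := by
            refine mul_le_mul (mul_le_mul_of_nonneg_left e3 (by positivity)) e4 (by positivity)
              (by positivity)
          refine le_trans e6 ?_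
          have e7 : Real.exp (-1) = 1 / Real.exp 1 := by rw [Real.exp_neg, one_div]
          rw [e7, le_div_iff₀ (Real.exp_pos 1)]
          have e8 : 0 < Real.exp 1 := Real.exp_pos 1
          nlinarith
      _ = Real.exp (-(k : ℝ)) := by
          rw [← Real.exp_nat_mul]; congr 1; ring
      _ ≤ Real.exp (-(D : ℝ) / 2 ^ (3 * a + 45)) := by
          rw [Real.exp_le_exp, neg_div, neg_le_neg_iff]
          refine le_trans ?_ hk1
          refine div_le_div_of_nonneg_right ?_ (by positivity)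
          linarith
  · intro ω hω
    have h1 := TT_avoid (D + 1) G A v k ω hω
    have h2 : ((tri G A (np G A v) ω).card : ℝ) ≤ k := by exact_mod_cast h1.le
    have p2 : (2 : ℝ) ^ (3 * a + 45) = 512 * 2 ^ (3 * a + 36) := by
      rw [show 3 * a + 45 = (3 * a + 36) + 9 by ring, pow_add]; norm_num; ring
    have p3 : 200 * (D : ℝ) / 2 ^ (3 * a + 45) = (200 / 512) * (D / 2 ^ (3 * a + 36)) := by
      rw [p2]; field_simp
    have p4 : (0 : ℝ) ≤ D / 2 ^ (3 * a + 36) := by positivity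
    rw [p3] at hk2
    linarith

end Pool.Agent.K1H34.HYC
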