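import Pool.Agent.K1H34.HYC.Stm
import Pool.Agent.K1H34.HYC.Stm2
import Pool.Agent.K1H34.HYC.Col
import Pool.Agent.K1H34.HYC.Seq
import Pool.Agent.K1H34.HYC.Tri
import Pool.Agent.K1H26.HYC.Tup
import Pool.Agent.K1H69.HYC.Glll
import Pool.Agent.K1H8.HYC.Hits
import Pool.Agent.K1H37.HYC.Part
import Pool.Agent.K1H38.HYC.Brk
import Pool.Agent.K1H16.HYC.GCL
import Pool.Agent.K1H37.HYC.Sub
import Pool.Agent.K1H89.HYC.Two
import Pool.Agent.K1H59.HYC.Naive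
import Pool.Agent.K1H4.HYC.St1
import Pool.Agent.K1H2.HYC.NEG
import Pool.Agent.K1H69.HYC.Lop
import Pool.Agent.K1H69.HYC.Hinj
import Pool.Agent.K1H38.HYC.Pop
import Pool.Agent.K1H45.HYC.Clus
import Pool.Agent.K1H63.HYC.Match
import Pool.Agent.K1H66.HYC.BaseDec
import Pool.Agent.K1H28.HYC.Att
import Pool.Agent.K1H96.HYC.Struct
import Pool.Agent.K1H51.HYC.A1
import Pool.Agent.K1H93.HYC.A2
import Pool.Agent.K1H57.HYC.A3
import Pool.Agent.K1H10.HYC.Fin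

/-!
# Final assembly
-/

set_option autoImplicit false

namespace Pool.Agent.K1H34.HYC

theorem final : S_FIN := by
  have hTUP : S_TUP := Pool.Agent.K1H26.HYC.t_TUP
  have hGLLL : S_GLLL := Pool.Agent.K1H69.HYC.t_GLLL
  have hHITS : S_HITS := Pool.Agent.K1H8.HYC.t_HITS hTUP hGLLL
  have hSEQ : S_SEQ := t_SEQ hHITS
  have hPART : S_PART := Pool.Agent.K1H37.HYC.t_PART
  have hBRK : S_BRK := Pool.Agent.K1H38.HYC.t_BRK
  have hGCL : S_GCL := Pool.Agent.K1H34.HYC.t_GCL hSEQ hPART hBRK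
  have hSUB : S_SUB := Pool.Agent.K1H37.HYC.t_SUB
  have hNAIVE : S_NAIVE := Pool.Agent.K1H59.HYC.t_NAIVE hTUP hGLLL t_TWO t_TRI
  have hST1 : S_ST1 := Pool.Agent.K1H4.HYC.t_ST1 hSUB hNAIVE hGCL
  have hNEG : S_NEG := Pool.Agent.K1H2.HYC.t_NEG
  have hLOP : S_LOP := Pool.Agent.K1H69.HYC.t_LOP
  have hHINJ : S_HINJ := Pool.Agent.K1H69.HYC.t_HINJ hTUP hNEG hLOP
  have hPOP : S_POP := Pool.Agent.K1H38.HYC.t_POP
  have hCLUS : S_CLUS := Pool.Agent.K1H45.HYC.t_CLUS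
  have hMATCH : S_MATCH := Pool.Agent.K1H63.HYC.t_MATCH
  have hGREEDY : S_GREEDY := Pool.Agent.K1H38.HYC.t_GREEDY
  have hBASE : S_BASE := Pool.Agent.K1H66.HYC.t_BASE hCLUS hMATCH
  have hATT : S_ATT := Pool.Agent.K1H28.HYC.t_ATT hGREEDY
  have hSTRUCT : S_STRUCT := t_STRUCT hBASE hATT
  have hA1 : S_A1 := Pool.Agent.K1H51.HYC.t_A1 hST1 hPOP
  have hA2 : S_A2 := Pool.Agent.K1H93.HYC.t_A2 hGCL hPOP
  have hA3 : S_A3 := Pool.Agent.K1H57.HYC.t_A3 hHINJ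
  exact Pool.Agent.K1H10.HYC.t_FIN (t_COL hA1 hA2 hA3 hSTRUCT)

end Pool.Agent.K1H34.HYC
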