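import Mathlib

/-!
# The Havet-Yu conjecture up to an error O(p): interface

Theorem: there is an absolute constant `C` with `λ_p^T(G) ≤ Δ(G) + C p` for all graphs `G`, `p ≥ 1`.

Plan: fix a proper edge colouring `c` with `D + 1` colours and find a proper vertex labelling `f`
with the labels `0..D` such that every vertex `x` has at most `C p` neighbours `y` with
`|f y - c x y| < p` (`S_COL`).
-/

set_option autoImplicit false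
open Classical Finset

namespace Pool.Agent.K1H34.HYC

/-- number of neighbours of `x` in `A` -/
noncomputable def dg {X : Type} [Fintype X] (Γ : SimpleGraph X) (A : Finset X) (x : X) : ℕ :=
  (A.filter (fun y => Γ.Adj x y)).card

/-- number of pairs (x, label) in a set of pairs (vertex, label) -/
noncomputable def row {X : Type} (P : Finset (X × ℕ)) (x : X) : ℕ :=
  (P.filter (fun z => z.1 = x)).card

/-- number of the vertices of `A` whose pair (vertex, label) is in `P` -/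
noncomputable def hits {X : Type} (P : Finset (X × ℕ)) (A : Finset X) (f : X → ℕ) : ℕ :=
  (A.filter (fun x => (x, f x) ∈ P)).card

/-- ordered pairs of distinct nonadjacent neighbours of `v` in `A` -/
noncomputable def np {X : Type} [Fintype X] (G : SimpleGraph X) (A : Finset X) (v : X) :
    Finset (X × X) :=
  (A ×ˢ A).filter (fun z => G.Adj v z.1 ∧ G.Adj v z.2 ∧ z.1 ≠ z.2 ∧ ¬ G.Adj z.1 z.2)

/-! ### local lemmas -/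

/-- TUP: weight of the `(r+1)`-subsets of `P` meeting `Q` -/
def S_TUP : Prop :=
  ∀ (α : Type) (P Q : Finset α) (r : ℕ) (t : ℝ), 1 ≤ r → 0 ≤ t → Q ⊆ P → 6 * (P.card : ℝ) * t ≤ r →
    ∑ τ ∈ (P.powersetCard (r + 1)).filter (fun τ => ∃ z ∈ τ, z ∈ Q), t ^ τ.card ≤
      (Q.card : ℝ) * t * (1 / 2) ^ r

/-- GLLL: asymmetric local lemma for independent uniform labels; the bad events are the partial
assignments in `T` and further events `F j` which depend on the set `H j` -/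
def S_GLLL : Prop :=
  ∀ (X J : Type) [Fintype X] [Fintype J] (N : ℕ) (w : ℝ) (T : Finset (Finset (X × Fin N)))
    (F : J → (X → Fin N) → Prop) (H : J → Finset X) (ε : J → ℝ),
    1 ≤ N → 0 ≤ w → w ≤ 1 / 2 →
    (∀ j, ∀ ω ω' : X → Fin N, (∀ x ∈ H j, ω x = ω' x) → F j ω → F j ω') →
    (∀ j, 0 ≤ ε j ∧ ε j < 1) → (∀ τ ∈ T, τ.Nonempty) →
    (∀ j, ((univ.filter (fun ω : X → Fin N => F j ω)).card : ℝ) ≤
      ε j * (1 - w) ^ (H j).card * (N : ℝ) ^ (Fintype.card X)) →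
    (∀ x, ∑ τ ∈ T.filter (fun τ => ∃ z ∈ τ, z.1 = x), (1 / ((1 - w) * N)) ^ τ.card +
      ∑ j ∈ univ.filter (fun j => x ∈ H j), ε j ≤ w) →
    ∃ ω : X → Fin N, (∀ τ ∈ T, ¬ (∀ z ∈ τ, ω z.1 = z.2)) ∧ ∀ j, ¬ F j ω

/-- HITS: one part is coloured by the local lemma -/
def S_HITS : Prop :=
  ∀ (X O : Type) [Fintype X] [Fintype O] (Γ : SimpleGraph X) (A : Finset X) (L : X → Finset ℕ)
    (s d : ℕ) (P : O → Finset (X × ℕ)) (r : O → ℕ),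
    64 ≤ s → (∀ x ∈ A, s ≤ (L x).card) → (∀ x ∈ A, dg Γ A x ≤ d) → 32 * d ≤ s →
    (∀ o, 1 ≤ r o) → (∀ o, 12 * ((P o).filter (fun z => z.1 ∈ A)).card ≤ s * r o) →
    (∀ x ∈ A, ∑ o, (row (P o) x : ℝ) * (1 / 2) ^ (r o) ≤ s / 16) →
    ∃ f : X → ℕ, (∀ x ∈ A, f x ∈ L x) ∧ (∀ x ∈ A, ∀ y ∈ A, Γ.Adj x y → f x ≠ f y) ∧
      ∀ o, hits (P o) A f ≤ r o

/-- SEQ: the parts `π x = 0, …, M - 1` are coloured one after the other -/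
def S_SEQ : Prop :=
  ∀ (X O : Type) [Fintype X] [Fintype O] (Γ : SimpleGraph X) (L : X → Finset ℕ) (M : ℕ)
    (π : X → ℕ) (s d : ℕ → ℕ) (P : O → Finset (X × ℕ)) (r : O → ℕ),
    (∀ x, π x < M) → (∀ m < M, 64 ≤ s m) →
    (∀ x, s (π x) + (univ.filter (fun y => Γ.Adj x y ∧ π y < π x)).card ≤ (L x).card) →
    (∀ x, (univ.filter (fun y => Γ.Adj x y ∧ π y = π x)).card ≤ d (π x)) →
    (∀ m < M, 32 * d m ≤ s m) →
    (∀ o, 1 ≤ r o) →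
    (∀ m < M, ∀ o, 12 * ((P o).filter (fun z => π z.1 = m)).card ≤ s m * r o) →
    (∀ x, ∑ o, (row (P o) x : ℝ) * (1 / 2) ^ (r o) ≤ s (π x) / 16) →
    ∃ f : X → ℕ, (∀ x, f x ∈ L x) ∧ (∀ x y, Γ.Adj x y → f x ≠ f y) ∧
      ∀ o, hits (P o) univ f ≤ M * r o

/-- PART: uniform random cells (Hoeffding and the symmetric local lemma) -/
def S_PART : Prop :=
  ∀ K : ℕ, 1 ≤ K → ∃ D0 : ℕ, ∀ D : ℕ, D0 ≤ D → ∀ (X J : Type) [Fintype X] [Fintype J]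
    (w : J → X → ℝ) (B : ℝ), 0 < B → (∀ j x, 0 ≤ w j x ∧ w j x ≤ B) →
    (∀ j, (univ.filter (fun x => w j x ≠ 0)).card ≤ D ^ 4) →
    (∀ x, (univ.filter (fun j => w j x ≠ 0)).card ≤ D ^ 4) →
    ∃ c : X → Fin K, ∀ j t, ∑ x ∈ univ.filter (fun x => c x = t), w j x ≤
      (∑ x, w j x) / K + Real.sqrt (B * ∑ x, w j x) * Real.log D

/-- BRK: breakpoints -/
def S_BRK : Prop :=
  ∀ l g : ℕ, ∃ (K M : ℕ) (b : ℕ → ℕ), 1 ≤ K ∧ 1 ≤ M ∧ M ≤ (g + 7) * 2 ^ (l + 7) + 1 ∧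
    b 0 = 0 ∧ b M = K ∧ (∀ m < M, b m < b (m + 1)) ∧
    (∀ m, m + 1 < M → (b (m + 1) - b m) * 2 ^ (l + 7) ≤ K - b m) ∧
    (K - b (M - 1)) * 2 ^ (g + 7) ≤ K

/-- GCL: the completion lemma -/
def S_GCL : Prop :=
  ∀ l g : ℕ, ∃ D0 : ℕ, ∀ D : ℕ, D0 ≤ D → ∀ (X O : Type) [Fintype X] [Fintype O]
    (Γ : SimpleGraph X) (L : X → Finset ℕ) (P : O → Finset (X × ℕ)) (r : O → ℕ),
    (∀ x, dg Γ univ x ≤ D) →
    (∀ x, (dg Γ univ x : ℝ) + D / 2 ^ g ≤ (L x).card) →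
    (∀ x, (D : ℝ) / 2 ^ l ≤ dg Γ univ x ∨ (dg Γ univ x : ℝ) + D / 2 ^ l ≤ (L x).card) →
    (∀ o, 1 ≤ r o) → (∀ o, (P o).card ≤ D * r o) → (∀ o, (P o).card ≤ D ^ 4) →
    (∀ o x, (row (P o) x : ℝ) ≤ (Real.log D) ^ 2) →
    (∀ x, (univ.filter (fun o => row (P o) x ≠ 0)).card ≤ D ^ 3) →
    (∀ x, ∑ o, (row (P o) x : ℝ) * (1 / 2) ^ (r o) ≤ D / 2 ^ (g + 6)) →
    ∃ f : X → ℕ, (∀ x, f x ∈ L x) ∧ (∀ x y, Γ.Adj x y → f x ≠ f y) ∧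
      ∀ o, hits (P o) univ f ≤ ((g + 7) * 2 ^ (l + 7) + 1) * r o

/-! ### the first round -/

/-- SUB: a random subset of density `2^(-k)` -/
def S_SUB : Prop :=
  ∀ k b : ℕ, ∃ D0 : ℕ, ∀ D : ℕ, D0 ≤ D → ∀ (X J : Type) [Fintype X] [Fintype J]
    (G : SimpleGraph X) (S Sst : Finset X) (w : J → X → ℝ) (B : ℝ),
    0 < B → (∀ j x, 0 ≤ w j x ∧ w j x ≤ B) →
    (∀ j, (univ.filter (fun x => w j x ≠ 0)).card ≤ D ^ 4) →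
    (∀ x, (univ.filter (fun j => w j x ≠ 0)).card ≤ D ^ 4) →
    (∀ x, dg G univ x ≤ D) → (∀ v ∈ Sst, (D : ℝ) ^ 2 / 2 ^ b ≤ (np G S v).card) →
    ∃ A ⊆ S, (∀ j, ∑ x ∈ A, w j x ≤
        (∑ x, w j x) / 2 ^ k + Real.sqrt (B * ∑ x, w j x) * Real.log D) ∧
      ∀ v ∈ Sst, ((np G S v).card : ℝ) / 2 ^ (2 * k + 1) ≤ (np G A v).card

/-- labels used exactly twice on `Y`, namely on a pair of `E` -/
noncomputable def two {X : Type} {N : ℕ} (Y : Finset X) (E : Finset (X × X)) (ω : X → Fin N) :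
    Finset (Fin N) :=
  univ.filter (fun ℓ => ∃ z ∈ E, ω z.1 = ℓ ∧ ω z.2 = ℓ ∧ ∀ y ∈ Y, ω y = ℓ → y = z.1 ∨ y = z.2)

/-- TWO: McDiarmid for `two` -/
def S_TWO : Prop :=
  ∀ a : ℕ, ∃ D0 : ℕ, ∀ D : ℕ, D0 ≤ D → ∀ (X : Type) [Fintype X] (Y : Finset X)
    (E : Finset (X × X)),
    (∀ z ∈ E, z.1 ∈ Y ∧ z.2 ∈ Y ∧ z.1 ≠ z.2 ∧ (z.2, z.1) ∈ E) → Y.card * 2 ^ (a + 14) ≤ D →
    D ^ 2 ≤ 2 ^ (3 * a + 33) * E.card →
    ((univ.filter (fun ω : X → Fin (D + 1) =>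
      ((two Y E ω).card : ℝ) < D / 2 ^ (3 * a + 36))).card : ℝ) ≤
      Real.exp (-(D : ℝ) / 2 ^ (5 * a + 59)) * ((D + 1 : ℕ) : ℝ) ^ (Fintype.card X)

/-- labels `ℓ` such that the two points of a pair of `E` and a neighbour (in `A`) of its first
point have the label `ℓ` -/
noncomputable def tri {X : Type} {N : ℕ} (G : SimpleGraph X) (A : Finset X) (E : Finset (X × X))
    (ω : X → Fin N) : Finset (Fin N) :=
  univ.filter (fun ℓ => ∃ z ∈ E, ∃ u ∈ A, G.Adj z.1 u ∧ ω z.1 = ℓ ∧ ω z.2 = ℓ ∧ ω u = ℓ)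

/-- TRI: few labels in `tri`, as a family of partial assignments to be avoided -/
def S_TRI : Prop :=
  ∀ a : ℕ, ∃ D0 : ℕ, ∀ D : ℕ, D0 ≤ D → ∀ (X : Type) [Fintype X] (G : SimpleGraph X)
    (A : Finset X) (v : X) (w : ℝ), 0 ≤ w → w ≤ 1 / 4 → (∀ x, dg G A x * 2 ^ (a + 14) ≤ D) →
    ∃ T : Finset (Finset (X × Fin (D + 1))),
      (∀ τ ∈ T, τ.Nonempty ∧ ∀ z ∈ τ, G.Adj v z.1 ∨ ∃ y, G.Adj v y ∧ G.Adj y z.1) ∧
      (∑ τ ∈ T, (1 / ((1 - w) * ((D + 1 : ℕ) : ℝ))) ^ τ.card ≤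
        Real.exp (-(D : ℝ) / 2 ^ (3 * a + 45))) ∧
      ∀ ω : X → Fin (D + 1), (∀ τ ∈ T, ¬ ∀ z ∈ τ, ω z.1 = z.2) →
        ((tri G A (np G A v) ω).card : ℝ) ≤ 2 / 5 * (D / 2 ^ (3 * a + 36)) + 1

/-- NAIVE: the first round, which creates repeated labels -/
def S_NAIVE : Prop :=
  ∀ a : ℕ, ∃ D0 : ℕ, ∀ D : ℕ, D0 ≤ D → ∀ (X O : Type) [Fintype X] [Fintype O]
    (G : SimpleGraph X) (A Sst : Finset X) (P : O → Finset (X × ℕ)) (r : O → ℕ),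
    (∀ x, dg G univ x ≤ D) → (∀ x, dg G A x * 2 ^ (a + 14) ≤ D) →
    (∀ v ∈ Sst, D ^ 2 ≤ 2 ^ (3 * a + 33) * (np G A v).card) →
    (∀ o, 1 ≤ r o) → (∀ o, 12 * ((P o).filter (fun z => z.1 ∈ A)).card ≤ D * r o) →
    (∀ x, ∑ o, (row (P o) x : ℝ) * (1 / 2) ^ (r o) ≤ D / 2 ^ (4 * a + 50)) →
    ∃ (A' : Finset X) (f : X → ℕ), A' ⊆ A ∧ (∀ x ∈ A', f x ≤ D) ∧
      (∀ x ∈ A', ∀ y ∈ A', G.Adj x y → f x ≠ f y) ∧ (∀ o, hits (P o) A' f ≤ r o) ∧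
      ∀ v ∈ Sst, (((A'.filter (fun y => G.Adj v y)).image f).card : ℝ) + D / 2 ^ (3 * a + 37) ≤
        dg G A' v

/-- ST1: the sparse stage -/
def S_ST1 : Prop :=
  ∀ a : ℕ, ∃ D0 : ℕ, ∀ D : ℕ, D0 ≤ D → ∀ (X O : Type) [Fintype X] [Fintype O]
    (G : SimpleGraph X) (S : Finset X) (P : O → Finset (X × ℕ)) (r : O → ℕ),
    (∀ x, dg G univ x ≤ D) →
    (∀ v ∈ S, (dg G S v : ℝ) ≤ (1 - 1 / 2 ^ (a + 2)) * D ∨
      (D : ℝ) ^ 2 / 2 ^ (a + 2) ≤ (np G S v).card) →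
    (∀ o, 1 ≤ r o) → (∀ o, (P o).card ≤ D * r o) → (∀ o, (P o).card ≤ D ^ 4) →
    (∀ o x, (row (P o) x : ℝ) ≤ (Real.log D) ^ 2) →
    (∀ x, (univ.filter (fun o => row (P o) x ≠ 0)).card ≤ D ^ 3) →
    (∀ x, ∑ o, (row (P o) x : ℝ) * (1 / 2) ^ (r o) ≤ D / 2 ^ (4 * a + 50)) →
    ∃ f : X → ℕ, (∀ x ∈ S, f x ≤ D) ∧ (∀ x ∈ S, ∀ y ∈ S, G.Adj x y → f x ≠ f y) ∧
      ∀ o, hits (P o) S f ≤ ((3 * a + 44) * 2 ^ 10 + 2) * r o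

/-! ### random injections -/

/-- the maps with values in the palettes, injective on every cluster -/
noncomputable def Inj {X I : Type} [Fintype X] (cl : X → I) (Pal : I → Finset ℕ) :
    Finset (X → ℕ) :=
  (Fintype.piFinset (fun x => Pal (cl x))).filter (fun f => ∀ x y, cl x = cl y → f x = f y → x = y)

/-- NEG: negative dependence of random injections -/
def S_NEG : Prop :=
  ∀ (X I : Type) [Fintype X] (cl : X → I) (Pal : I → Finset ℕ) (s : ℕ) (τ : Finset (X × ℕ))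
    (T : Finset (Finset (X × ℕ))),
    (∀ i, s + τ.card ≤ (Pal i).card) →
    (∀ τ' ∈ T, ∀ z ∈ τ, ∀ z' ∈ τ', z.1 ≠ z'.1 ∧ (cl z.1 = cl z'.1 → z.2 ≠ z'.2)) →
    ((Inj cl Pal).filter (fun f => (∀ z ∈ τ, f z.1 = z.2) ∧
      ∀ τ' ∈ T, ¬ ∀ z ∈ τ', f z.1 = z.2)).card * s ^ τ.card ≤
    ((Inj cl Pal).filter (fun f => ∀ τ' ∈ T, ¬ ∀ z ∈ τ', f z.1 = z.2)).card

/-- LOP: lopsided local lemma, counting form -/
def S_LOP : Prop :=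
  ∀ (Ω E : Type) [Fintype E] (W : Finset Ω) (B : E → Ω → Prop) (nbr : E → E → Prop) (x : E → ℝ),
    W.Nonempty → (∀ e, 0 ≤ x e ∧ x e < 1) →
    (∀ e, ∀ T : Finset E, (∀ e' ∈ T, ¬ nbr e e') →
      ((W.filter (fun ω => B e ω ∧ ∀ e' ∈ T, ¬ B e' ω)).card : ℝ) ≤
        x e * (∏ e' ∈ univ.filter (fun e' => nbr e e' ∧ e' ≠ e), (1 - x e')) *
        (W.filter (fun ω => ∀ e' ∈ T, ¬ B e' ω)).card) →
    ∃ ω ∈ W, ∀ e, ¬ B e ω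

/-- HINJ: the clusters are coloured by random injections into their palettes -/
def S_HINJ : Prop :=
  ∀ (X O I : Type) [Fintype X] [Fintype O] (Γ : SimpleGraph X) (cl : X → I)
    (Pal : I → Finset ℕ) (F : Finset (X × ℕ)) (s R : ℕ) (P : O → Finset (X × ℕ)) (r : O → ℕ),
    64 ≤ s → 2 ≤ R → (∀ i, (univ.filter (fun x => cl x = i)).card ≤ (Pal i).card) →
    (∀ i, s + R ≤ (Pal i).card) → (∀ i, (Pal i).card ≤ 2 * s) → (∀ o, 1 ≤ r o ∧ r o + 1 ≤ R) →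
    (∀ x, 32 * row F x ≤ s) →
    (∀ i, ∀ ℓ ∈ Pal i, 32 * (F.filter (fun z => cl z.1 = i ∧ z.2 = ℓ)).card ≤ s) →
    (∀ x, 128 * (univ.filter (fun y => Γ.Adj x y ∧ cl y ≠ cl x)).card ≤ s) →
    (∀ i, 64 * (univ.filter (fun z : X × X => cl z.1 = i ∧ Γ.Adj z.1 z.2 ∧ cl z.2 ≠ i)).card ≤
      s ^ 2) →
    (∀ o, 12 * (P o).card ≤ s * r o) →
    (∀ x, ∑ o, (row (P o) x : ℝ) * (1 / 2) ^ (r o) ≤ s / 16) →
    (∀ i, ∀ ℓ ∈ Pal i, ∑ o, (((P o).filter (fun z => cl z.1 = i ∧ z.2 = ℓ)).card : ℝ) *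
      (1 / 2) ^ (r o) ≤ s / 16) →
    ∃ f : X → ℕ, (∀ x, f x ∈ Pal (cl x)) ∧ (∀ x y, cl x = cl y → f x = f y → x = y) ∧
      (∀ x, (x, f x) ∉ F) ∧ (∀ x y, Γ.Adj x y → cl x ≠ cl y → f x ≠ f y) ∧
      ∀ o, hits (P o) univ f ≤ r o

/-! ### popular labels -/

/-- POP: a family of sets of pairs which controls the weight of a label in a cluster -/
def S_POP : Prop :=
  ∀ (b Bc r0 D : ℕ) (X I : Type) [Fintype X] [Fintype I] (w : I → X → ℕ) (Wt : ℝ),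
    1 ≤ D → 1 ≤ r0 → (∀ i x, (w i x : ℝ) ≤ D / 2 ^ b) → (∀ x, ∑ i, w i x ≤ 2 ^ Bc * D) →
    (∀ i, ((∑ x, w i x : ℕ) : ℝ) ≤ Wt) →
    ∃ (P : I × Fin (D + 1) × Fin (D + 1) → Finset (X × ℕ))
      (r : I × Fin (D + 1) × Fin (D + 1) → ℕ),
      (∀ o, 1 ≤ r o) ∧ (∀ o, (P o).card ≤ D * r o) ∧ (∀ o, ((P o).card : ℝ) ≤ Wt) ∧
      (∀ o x, row (P o) x ≤ 1) ∧
      (∀ x, (univ.filter (fun o => row (P o) x ≠ 0)).card ≤
        (D + 1) * (univ.filter (fun i => w i x ≠ 0)).card) ∧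
      (∀ x, ∑ o, (row (P o) x : ℝ) * (1 / 2) ^ (r o) ≤ (D + 1) * 2 ^ (b + Bc + 2) / 2 ^ r0) ∧
      ∀ (A : Finset X) (f : X → ℕ) (M : ℕ), (∀ x ∈ A, f x ≤ D) →
        (∀ o, hits (P o) A f ≤ M * r o) →
        ∀ i ℓ, ((∑ x ∈ A.filter (fun x => f x = ℓ), w i x : ℕ) : ℝ) ≤
          M * ((2 * r0 + 6) * D / 2 ^ b + 2 * Wt / D)

/-! ### structure -/

/-- CLUS: the dense clusters (Reed) -/
def S_CLUS : Prop :=
  ∀ (V : Type) [Fintype V] (G : SimpleGraph V) (D : ℕ) (δ : ℝ), 1 ≤ D → 0 < δ → δ ≤ 1 / 100 →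
    (∀ v, dg G univ v ≤ D) →
    ∃ (I : Finset V) (K : V → Finset V),
      (∀ i ∈ I, ∀ j ∈ I, i ≠ j → Disjoint (K i) (K j)) ∧
      (∀ v, (∀ i ∈ I, v ∉ K i) →
        ((univ.filter (fun z : V × V => G.Adj v z.1 ∧ G.Adj v z.2 ∧ G.Adj z.1 z.2)).card : ℝ) ≤
          (1 - δ) * D ^ 2) ∧
      (∀ i ∈ I, (1 - 5 * δ) * D ≤ (K i).card ∧ ((K i).card : ℝ) ≤ (1 + 2 * δ) * D) ∧
      (∀ i ∈ I, ∀ w ∈ K i, (3 / 4 - 4 * δ) * D ≤ dg G (K i) w) ∧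
      (∀ i ∈ I, ∀ w, w ∉ K i → (dg G (K i) w : ℝ) ≤ (3 / 4 + 2 * δ) * D) ∧
      (∀ i ∈ I, ∑ w ∈ K i, (dg G (univ \ K i) w : ℝ) ≤ 7 * δ * D ^ 2)

/-- MATCH: merging nonadjacent pairs of a set until at most `D + 1` classes are left -/
def S_MATCH : Prop :=
  ∀ (V : Type) [Fintype V] (G : SimpleGraph V) (K : Finset V) (D : ℕ),
    (∀ v ∈ K, dg G K v ≤ D) → 2 * (K.card - (D + 1)) ≤ K.card →
    ∃ q : V → V, (∀ v, v ∉ K → q v = v) ∧ (∀ v ∈ K, q v ∈ K) ∧ (∀ v, q (q v) = q v) ∧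
      (∀ v, ¬ G.Adj v (q v)) ∧ (∀ u, (univ.filter (fun v => q v = u)).card ≤ 2) ∧
      (univ.filter (fun v => q v ≠ v)).card = K.card - (D + 1)

/-- GREEDY: a system of choices without conflicts -/
def S_GREEDY : Prop :=
  ∀ (R V : Type) [Fintype R] (C : R → Finset V) (conf : R → V → R → V → Prop),
    (∀ ρ y ρ' y', conf ρ y ρ' y' → conf ρ' y' ρ y) → (∀ ρ, (C ρ).Nonempty) →
    (∀ ρ, ∀ g : R → V, (∀ ρ', g ρ' ∈ C ρ') →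
      ((C ρ).filter (fun y => ∃ ρ', ρ' ≠ ρ ∧ conf ρ y ρ' (g ρ'))).card < (C ρ).card) →
    ∃ g : R → V, (∀ ρ, g ρ ∈ C ρ) ∧ ∀ ρ ρ', ρ ≠ ρ' → ¬ conf ρ (g ρ) ρ' (g ρ')

/-- the class of `u` (the vertices of `Z` are grouped in classes by `q : V → V`) -/
noncomputable def cls {V : Type} (Z : Finset V) (q : V → V) (u : V) : Finset V :=
  Z.filter (fun z => q z = u)

/-- the neighbours of the class of `u` -/
noncomputable def CN {V : Type} [Fintype V] (G : SimpleGraph V) (Z : Finset V) (q : V → V)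
    (u : V) : Finset V :=
  univ.filter (fun v => ∃ z ∈ cls Z q u, G.Adj z v)

/-- the classes of `u ≠ u'` are adjacent or meet a common cluster -/
def Rel {V : Type} (G : SimpleGraph V) (I : Finset V) (K : V → Finset V) (Z : Finset V)
    (q : V → V) (u u' : V) : Prop :=
  u' ∈ Z ∧ q u' = u' ∧ u' ≠ u ∧
    ((∃ z ∈ cls Z q u, ∃ z' ∈ cls Z q u', G.Adj z z') ∨
      ∃ i ∈ I, (∃ z ∈ cls Z q u, z ∈ K i) ∧ ∃ z' ∈ cls Z q u', z' ∈ K i)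

/-- the decomposition: clusters `K i` (`i ∈ I`), sparse vertices `S`, classes on `Z`, and the
remaining core vertices of the clusters -/
structure Good {V : Type} [Fintype V] (G : SimpleGraph V) (D : ℕ) (I : Finset V)
    (K : V → Finset V) (S Z : Finset V) (q : V → V) : Prop where
  disj : ∀ i ∈ I, ∀ j ∈ I, i ≠ j → Disjoint (K i) (K j)
  SZ : Disjoint S Z
  SK : ∀ i ∈ I, Disjoint S (K i)
  cover : ∀ v, v ∉ S → v ∉ Z → ∃ i ∈ I, v ∈ K i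
  sparse : ∀ v ∈ S, (dg G S v : ℝ) ≤ (1 - 1 / 2 ^ 602) * D ∨
    (D : ℝ) ^ 2 / 2 ^ 602 ≤ (np G S v).card
  smallS : ∀ v ∈ S, ∀ i ∈ I, (dg G (K i) v : ℝ) ≤ D / 2 ^ 60
  qZ : ∀ z ∈ Z, q z ∈ Z ∧ q (q z) = q z
  indep : ∀ z ∈ Z, ∀ z' ∈ Z, q z = q z' → ¬ G.Adj z z'
  size : ∀ u, (cls Z q u).card ≤ 2 ^ 122
  slack : ∀ u ∈ Z, q u = u → ((S.filter (fun v => v ∈ CN G Z q u)).card : ℝ) +
    (univ.filter (fun u' => Rel G I K Z q u u')).card + D / 2 ^ 61 ≤ D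
  smallZ : ∀ u ∈ Z, q u = u → ∀ i ∈ I, (∀ z ∈ cls Z q u, z ∉ K i) →
    (((K i).filter (fun v => v ∈ CN G Z q u)).card : ℝ) ≤ D / 2 ^ 119
  cnt : ∀ i ∈ I, ((K i).filter (fun v => v ∉ Z)).card +
    (((K i).filter (fun v => v ∈ Z)).image q).card ≤ D + 1
  few : ∀ i ∈ I, ((((K i).filter (fun v => v ∈ Z)).image q).card : ℝ) ≤ D / 2 ^ 290
  out : ∀ i ∈ I, ∀ v ∈ K i, v ∉ Z → (dg G (univ \ K i) v : ℝ) ≤ D / 2 ^ 300
  tot : ∀ i ∈ I, ∑ v ∈ K i, (dg G (univ \ K i) v : ℝ) ≤ (D : ℝ) ^ 2 / 2 ^ 590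

/-- STRUCT: the decomposition exists -/
def S_STRUCT : Prop :=
  ∃ D0 : ℕ, ∀ D : ℕ, D0 ≤ D → ∀ (V : Type) [Fintype V] (G : SimpleGraph V),
    (∀ v, dg G univ v ≤ D) → ∃ I K S Z q, Good G D I K S Z q

/-! ### assembly -/

/-- the label `ℓ` of `y` is near the colour of `x y` -/
def near (p : ℕ) (ℓ k : ℕ) : Prop := ℓ < k + p ∧ k < ℓ + p

/-- number of `y ∈ A` adjacent to `x` with the label near the colour of `x y` -/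
noncomputable def load {V : Type} (G : SimpleGraph V) (c : V → V → ℕ) (p : ℕ) (A : Finset V)
    (f : V → ℕ) (x : V) : ℕ :=
  (A.filter (fun y => G.Adj x y ∧ near p (f y) (c x y))).card

/-- A1: labelling of the sparse vertices -/
def S_A1 : Prop :=
  ∃ C D0 : ℕ, ∀ D : ℕ, D0 ≤ D → ∀ p : ℕ, 1 ≤ p → (p : ℝ) ≤ Real.log D →
    ∀ (V : Type) [Fintype V] (G : SimpleGraph V) (c : V → V → ℕ) (I : Finset V)
      (K : V → Finset V) (S Z : Finset V) (q : V → V), (∀ v, dg G univ v ≤ D) →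
      (∀ x y z, G.Adj x y → G.Adj x z → c x y = c x z → y = z) → (∀ x y, c x y = c y x) →
      Good G D I K S Z q →
      ∃ f : V → ℕ, (∀ v ∈ S, f v ≤ D) ∧ (∀ v ∈ S, ∀ v' ∈ S, G.Adj v v' → f v ≠ f v') ∧
        (∀ x, load G c p S f x ≤ C * p) ∧
        ∀ i ∈ I, ∀ ℓ, ((∑ z ∈ S.filter (fun z => f z = ℓ), dg G (K i) z : ℕ) : ℝ) ≤ D / 2 ^ 10

/-- A2: labelling of the classes -/
def S_A2 : Prop :=
  ∃ C D0 : ℕ, ∀ D : ℕ, D0 ≤ D → ∀ p : ℕ, 1 ≤ p → (p : ℝ) ≤ Real.log D →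
    ∀ (V : Type) [Fintype V] (G : SimpleGraph V) (c : V → V → ℕ) (I : Finset V)
      (K : V → Finset V) (S Z : Finset V) (q : V → V), (∀ v, dg G univ v ≤ D) →
      (∀ x y z, G.Adj x y → G.Adj x z → c x y = c x z → y = z) → (∀ x y, c x y = c y x) →
      Good G D I K S Z q → ∀ f1 : V → ℕ,
      ∃ f : V → ℕ, (∀ z ∈ Z, f z ≤ D) ∧ (∀ z ∈ Z, f z = f (q z)) ∧
        (∀ z ∈ Z, ∀ z' ∈ Z, G.Adj z z' → f z ≠ f z') ∧
        (∀ z ∈ Z, ∀ v ∈ S, G.Adj z v → f z ≠ f1 v) ∧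
        (∀ x, load G c p Z f x ≤ C * p) ∧
        ∀ i ∈ I, ∀ ℓ, ((∑ u ∈ Z.filter (fun u => q u = u ∧ f u = ℓ ∧ ∀ z ∈ cls Z q u, z ∉ K i),
          ((K i).filter (fun v => v ∈ CN G Z q u)).card : ℕ) : ℝ) ≤ D / 2 ^ 10

/-- A3: labelling of the cores -/
def S_A3 : Prop :=
  ∃ C D0 : ℕ, ∀ D : ℕ, D0 ≤ D → ∀ p : ℕ, 1 ≤ p → (p : ℝ) ≤ Real.log D →
    ∀ (V : Type) [Fintype V] (G : SimpleGraph V) (c : V → V → ℕ) (I : Finset V)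
      (K : V → Finset V) (S Z : Finset V) (q : V → V), (∀ v, dg G univ v ≤ D) →
      (∀ x y z, G.Adj x y → G.Adj x z → c x y = c x z → y = z) → (∀ x y, c x y = c y x) →
      Good G D I K S Z q → ∀ f1 f2 : V → ℕ, (∀ z ∈ Z, f2 z = f2 (q z)) →
      (∀ i ∈ I, ∀ ℓ, ((∑ z ∈ S.filter (fun z => f1 z = ℓ), dg G (K i) z : ℕ) : ℝ) ≤ D / 2 ^ 10) →
      (∀ i ∈ I, ∀ ℓ, ((∑ u ∈ Z.filter (fun u => q u = u ∧ f2 u = ℓ ∧ ∀ z ∈ cls Z q u, z ∉ K i),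
          ((K i).filter (fun v => v ∈ CN G Z q u)).card : ℕ) : ℝ) ≤ D / 2 ^ 10) →
      ∃ f : V → ℕ, (∀ v, v ∉ S → v ∉ Z → f v ≤ D) ∧
        (∀ v v', v ∉ S → v ∉ Z → v' ∉ S → v' ∉ Z → G.Adj v v' → f v ≠ f v') ∧
        (∀ v, v ∉ S → v ∉ Z → ∀ z ∈ S, G.Adj v z → f v ≠ f1 z) ∧
        (∀ v, v ∉ S → v ∉ Z → ∀ z ∈ Z, G.Adj v z → f v ≠ f2 z) ∧
        ∀ x, load G c p (univ.filter (fun v => v ∉ S ∧ v ∉ Z)) f x ≤ C * p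

/-- COL: the vertex labelling -/
def S_COL : Prop :=
  ∃ C D0 : ℕ, ∀ D : ℕ, D0 ≤ D → ∀ p : ℕ, 1 ≤ p → (p : ℝ) ≤ Real.log D →
    ∀ (V : Type) [Fintype V] (G : SimpleGraph V) (c : V → V → ℕ), (∀ v, dg G univ v ≤ D) →
      (∀ x y z, G.Adj x y → G.Adj x z → c x y = c x z → y = z) → (∀ x y, c x y = c y x) →
      ∃ f : V → ℕ, (∀ v, f v ≤ D) ∧ (∀ x y, G.Adj x y → f x ≠ f y) ∧
        ∀ x, load G c p univ f x ≤ C * p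

/-- FIN: total labellings -/
def S_FIN : Prop :=
  ∃ C : ℕ, ∀ (V : Type) [Fintype V] (G : SimpleGraph V) (p D : ℕ), 1 ≤ p →
    (∀ v, dg G univ v ≤ D) →
    ∃ (fV : V → ℕ) (fE : Sym2 V → ℕ),
      (∀ v, fV v < D + C * p) ∧ (∀ e ∈ G.edgeSet, fE e < D + C * p) ∧
      (∀ u v, G.Adj u v → fV u ≠ fV v) ∧
      (∀ u v w, G.Adj u v → G.Adj u w → v ≠ w → fE s(u, v) ≠ fE s(u, w)) ∧
      (∀ u v, G.Adj u v → (p : ℤ) ≤ |(fV u : ℤ) - (fE s(u, v) : ℤ)| ∧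
        |(fV u : ℤ) - (fE s(u, v) : ℤ)| ≤ ((D + C * p : ℕ) : ℤ) - p)

end Pool.Agent.K1H34.HYC
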